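import Pool.Agent.Q31.GLW.Stm

/-!
# Job GLW-TRF of helper31 (MP_2f8bd9_al): transfinite recursion
-/

set_option autoImplicit false

namespace Pool.Agent.Q76.GLW

open Cardinal Pool.Agent.Q31.GLW

section
variable {G T : Type} [Group G] (r : T → T → Prop)

/-- the elements chosen before `τ` -/
def Sb (h : T → G) (τ : T) : Set G := {x | ∃ σ, r σ τ ∧ x = h σ}

theorem closure_mono_step [IsWellOrder T r] (h : T → G) {σ σ' : T} (hs : r σ σ') :
    Subgroup.closure (Sb r h σ ∪ {h σ}) ≤ Subgroup.closure (Sb r h σ' ∪ {h σ'}) := by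
  apply Subgroup.closure_mono
  rintro x (⟨ρ, h1, rfl⟩ | hx)
  · exact Or.inl ⟨ρ, _root_.trans h1 hs, rfl⟩
  · rw [Set.mem_singleton_iff] at hx
    exact Or.inl ⟨σ, hs, hx⟩

theorem mem_step [IsWellOrder T r] (h : T → G) (Q : T → Prop) {x : G}
    (hx : x ∈ Subgroup.closure {x | ∃ σ, Q σ ∧ x = h σ}) :
    x = 1 ∨ ∃ σ, Q σ ∧ x ∈ Subgroup.closure (Sb r h σ ∪ {h σ}) := by
  induction hx using Subgroup.closure_induction with
  | mem x hx =>
    obtain ⟨σ, h1, rfl⟩ := hx
    exact Or.inr ⟨σ, h1, Subgroup.subset_closure (Or.inr rfl)⟩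
  | one => exact Or.inl rfl
  | mul x y _ _ ihx ihy =>
    rcases ihx with rfl | ⟨σ, h1, h2⟩
    · rw [one_mul]; exact ihy
    · rcases ihy with rfl | ⟨σ', h1', h2'⟩
      · rw [mul_one]; exact Or.inr ⟨σ, h1, h2⟩
      · rcases trichotomous_of r σ σ' with h3 | h3 | h3
        · exact Or.inr ⟨σ', h1', mul_mem (closure_mono_step r h h3 h2) h2'⟩
        · subst h3
          exact Or.inr ⟨σ, h1, mul_mem h2 h2'⟩
        · exact Or.inr ⟨σ, h1, mul_mem h2 (closure_mono_step r h h3 h2')⟩
  | inv x _ ih =>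
    rcases ih with rfl | ⟨σ, h1, h2⟩
    · left; simp
    · exact Or.inr ⟨σ, h1, inv_mem h2⟩

end

theorem closure_countable {G : Type} [Group G] (S : Set G) (hS : S.Countable) :
    (Subgroup.closure S : Set G).Countable := by
  have : Countable S := hS.to_subtype
  have h1 : Countable (FreeGroup S) := by unfold FreeGroup; infer_instance
  have h2 : (Subgroup.closure S : Set G) ⊆ Set.range (FreeGroup.lift (fun x : S => (x : G))) := by
    have h3 : Subgroup.closure S ≤ (FreeGroup.lift (fun x : S => (x : G))).range := by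
      rw [Subgroup.closure_le]
      intro x hx
      exact ⟨FreeGroup.of ⟨x, hx⟩, by simp⟩
    intro x hx
    exact h3 hx
  exact (Set.countable_range _).mono h2

open Classical in
theorem t_TRF : S_TRF := by
  intro G T _ P sol hT hP1 hsol
  obtain ⟨r, wo, hr⟩ := Cardinal.exists_ord_eq T
  have hc : ∀ τ : T, {σ | r σ τ}.Countable := by
    intro τ
    have h1 := Cardinal.card_typein_lt τ hr
    have h2 : #{σ | r σ τ} < ℵ₁ := by
      have h3 : #{σ | r σ τ} = (Ordinal.typein r τ).card := by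
        rw [Ordinal.typein]
        rfl
      rw [h3]
      exact h1.trans_le hT
    rw [← Cardinal.le_aleph0_iff_set_countable]
    rwa [← Cardinal.succ_aleph0, Order.lt_succ_iff] at h2
  have hwf : WellFounded r := wo.wf
  let F : ∀ τ : T, (∀ σ, r σ τ → G) → G := fun τ f =>
    if hyp : ∃ h, sol τ h ∧ ∀ x ∈ Subgroup.closure
      ((Subgroup.closure {x | ∃ σ, ∃ hs : r σ τ, x = f σ hs} : Set G) ∪ {h}), P x
    then hyp.choose else 1
  let h : T → G := hwf.fix F
  have hfix : ∀ τ, h τ = F τ fun σ _ => h σ := fun τ => hwf.fix_eq F τ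
  have hset : ∀ τ, {x | ∃ σ, ∃ _ : r σ τ, x = h σ} = Sb r h τ := by
    intro τ
    ext x
    simp [Sb]
  have hcl : ∀ τ, Subgroup.closure ((Subgroup.closure (Sb r h τ) : Set G) ∪ {h τ}) =
      Subgroup.closure (Sb r h τ ∪ {h τ}) := by
    intro τ
    rw [Subgroup.closure_union, Subgroup.closure_union, Subgroup.closure_eq]
  have hmain : ∀ τ, sol τ (h τ) ∧ ∀ x ∈ Subgroup.closure (Sb r h τ ∪ {h τ}), P x := by
    intro τ
    induction τ using hwf.induction with
    | _ τ ih =>
      have h1 : ∀ k ∈ Subgroup.closure (Sb r h τ), P k := by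
        intro k hk
        rcases mem_step r h (fun σ => r σ τ) hk with rfl | ⟨σ, h2, h3⟩
        · exact hP1
        · exact (ih σ h2).2 k h3
      have h2 : (Sb r h τ).Countable := by
        have : Sb r h τ = h '' {σ | r σ τ} := by
          ext x
          simp only [Sb, Set.mem_ofPred_eq, Set.mem_image]
          constructor
          · rintro ⟨σ, h3, rfl⟩
            exact ⟨σ, h3, rfl⟩
          · rintro ⟨σ, h3, rfl⟩
            exact ⟨σ, h3, rfl⟩
        rw [this]
        exact (hc τ).image _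
      have h3 := hsol (Subgroup.closure (Sb r h τ)) (closure_countable _ h2) h1 τ
      have h4 : ∃ g, sol τ g ∧ ∀ x ∈ Subgroup.closure
          ((Subgroup.closure {x | ∃ σ, ∃ _ : r σ τ, x = h σ} : Set G) ∪ {g}), P x := by
        rw [hset]
        exact h3
      have h5 : h τ = h4.choose := by
        rw [hfix τ]
        exact dif_pos h4
      have h6 := h4.choose_spec
      rw [← h5, hset] at h6
      rw [← hcl]
      exact h6
  refine ⟨Subgroup.closure {x | ∃ σ, True ∧ x = h σ}, ?_, ?_⟩
  · intro x hx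
    rcases mem_step r h (fun _ => True) hx with rfl | ⟨σ, _, h3⟩
    · exact hP1
    · exact (hmain σ).2 x h3
  · intro τ
    exact ⟨h τ, Subgroup.subset_closure ⟨τ, trivial, rfl⟩, (hmain τ).1⟩

end Pool.Agent.Q76.GLW
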